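import Pool.Agent.Helper83.CO.St

/-!
Module UNI of project CO (MP_140278_ag): the valuation over the point `s` with weights `a` is unique,
and its values at the coordinates.
-/

open scoped BigOperators
open MvPolynomial

namespace Pool.Agent.Helper13.CO

open Pool.Agent.Helper53.CX Pool.Agent.Helper83.CO

theorem uni_ord_one {k : ℕ} (v : DivVal (Kn (k + 1))) : v.ord 1 = 0 := by
  have h := v.ord_mul 1 1 one_ne_zero one_ne_zero
  rw [one_mul] at h
  omega

theorem uni_ord_inv {k : ℕ} (v : DivVal (Kn (k + 1))) (f : Kn (k + 1)) (hf : f ≠ 0) :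
    v.ord f⁻¹ = - v.ord f := by
  have h := v.ord_mul f f⁻¹ hf (inv_ne_zero hf)
  rw [mul_inv_cancel₀ hf, uni_ord_one] at h
  omega

theorem uni_ext {k : ℕ} (v v' : DivVal (Kn (k + 1))) (h : v.ord = v'.ord) : v = v' := by
  cases v
  cases v'
  simp only at h
  subst h
  rfl

/-- the value at a polynomial is determined -/
theorem uni_poly {k : ℕ} (s : Option ℂ) (a : Fin (k + 1) → ℤ) (v v' : DivVal (Kn (k + 1)))
    (h : IsVal v s a) (h' : IsVal v' s a) (f : Pn (k + 1)) (hf : f ≠ 0) :
    v.ord (algebraMap (Pn (k + 1)) (Kn (k + 1)) f) =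
      v'.ord (algebraMap (Pn (k + 1)) (Kn (k + 1)) f) := by
  obtain ⟨h1, m, hm, h2⟩ := h f hf
  obtain ⟨h1', m', hm', h2'⟩ := h' f hf
  apply le_antisymm
  · rw [h2']
    exact h1 m' hm'
  · rw [h2]
    exact h1' m hm

theorem uni_eq {k : ℕ} (s : Option ℂ) (a : Fin (k + 1) → ℤ) (v v' : DivVal (Kn (k + 1)))
    (h : IsVal v s a) (h' : IsVal v' s a) : v = v' := by
  apply uni_ext
  funext f
  by_cases hf : f = 0
  · rw [hf, v.ord_zero, v'.ord_zero]
  · obtain ⟨p, q, hq, rfl⟩ := IsFractionRing.div_surjective (A := Pn (k + 1)) f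
    have hq0 : q ≠ 0 := nonZeroDivisors.ne_zero hq
    have hqa : algebraMap (Pn (k + 1)) (Kn (k + 1)) q ≠ 0 := by
      intro h0
      exact hf (by rw [h0, div_zero])
    have hpa : algebraMap (Pn (k + 1)) (Kn (k + 1)) p ≠ 0 := by
      intro h0
      exact hf (by rw [h0, zero_div])
    have hp0 : p ≠ 0 := by
      rintro rfl
      exact hpa (map_zero _)
    rw [div_eq_mul_inv, v.ord_mul _ _ hpa (inv_ne_zero hqa),
      v'.ord_mul _ _ hpa (inv_ne_zero hqa), uni_ord_inv _ _ hqa, uni_ord_inv _ _ hqa,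
      uni_poly s a v v' h h' p hp0, uni_poly s a v v' h h' q hq0]

/-- the value at a polynomial with one term -/
theorem uni_mono {k : ℕ} (s : Option ℂ) (a : Fin (k + 1) → ℤ) (v : DivVal (Kn (k + 1)))
    (h : IsVal v s a) (f : Pn (k + 1)) (m : Fin k →₀ ℕ) (c : Polynomial ℂ) (hc : c ≠ 0)
    (hf : Phi k f = monomial m c) :
    v.ord (algebraMap (Pn (k + 1)) (Kn (k + 1)) f) = pr a (zs s c) (fun j => (m j : ℤ)) := by
  have hf0 : f ≠ 0 := by
    rintro rfl
    rw [map_zero] at hf
    exact hc ((MvPolynomial.monomial_eq_zero).1 hf.symm)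
  obtain ⟨-, m', hm', h2⟩ := h f hf0
  rw [hf] at hm' h2
  have h3 : m' = m := Finset.mem_singleton.1 (MvPolynomial.support_monomial_subset hm')
  rw [h2, h3, MvPolynomial.coeff_monomial, if_pos rfl]

theorem uni_zs (p : ℂ) : zs none (Polynomial.X - Polynomial.C p) = -1 ∧
    zs (some p) (Polynomial.X - Polynomial.C p) = 1 ∧
    ∀ p' : ℂ, p' ≠ p → zs (some p') (Polynomial.X - Polynomial.C p) = 0 := by
  refine ⟨?_, ?_, ?_⟩
  · simp [zs, Polynomial.natDegree_X_sub_C]
  · simp [zs, Polynomial.rootMultiplicity_X_sub_C]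
  · intro p' hp
    simp [zs, Polynomial.rootMultiplicity_X_sub_C, hp]

theorem uni_zs_zero (s : Option ℂ) :
    zs s (Polynomial.X - Polynomial.C (0 : ℂ)) = eps s := by
  rw [Polynomial.C_0, sub_zero]
  rfl

theorem uni_zs_one (s : Option ℂ) : zs s 1 = 0 := by
  cases s with
  | none => simp [zs]
  | some p =>
    have h : Polynomial.rootMultiplicity p (1 : Polynomial ℂ) = 0 := by
      rw [← Polynomial.C_1]
      exact Polynomial.rootMultiplicity_C _ _
    simp only [zs, h, Nat.cast_zero]

theorem uni_lin (hPHI : StPHI) {k : ℕ} (s : Option ℂ) (a : Fin (k + 1) → ℤ)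
    (v : DivVal (Kn (k + 1))) (p : ℂ) (h : IsVal v s a) :
    v.ord (x 0 - algebraMap ℂ (Kn (k + 1)) p) = a 0 * zs s (Polynomial.X - Polynomial.C p) := by
  have h1 : (x 0 - algebraMap ℂ (Kn (k + 1)) p : Kn (k + 1)) =
      algebraMap (Pn (k + 1)) (Kn (k + 1)) (X 0 - C p) := by
    rw [map_sub, x, IsScalarTower.algebraMap_apply ℂ (Pn (k + 1)) (Kn (k + 1)),
      MvPolynomial.algebraMap_eq]
  have h2 : Phi k (X 0 - C p) = monomial 0 (Polynomial.X - Polynomial.C p) := by
    rw [(hPHI k).2.2.2.1 p, MvPolynomial.C_apply]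
  rw [h1, uni_mono s a v h _ _ _ (Polynomial.X_sub_C_ne_zero p) h2, pr]
  simp

theorem uni_var (hPHI : StPHI) {k : ℕ} (s : Option ℂ) (a : Fin (k + 1) → ℤ)
    (v : DivVal (Kn (k + 1))) (h : IsVal v s a) (j : Fin k) : v.ord (x j.succ) = a j.succ := by
  have h2 : Phi k (X j.succ) = monomial (Finsupp.single j 1) 1 := by
    rw [(hPHI k).2.2.2.2 j]
    rfl
  rw [x, uni_mono s a v h _ _ _ one_ne_zero h2, pr, uni_zs_one, mul_zero, zero_add]
  rw [Finset.sum_eq_single j]
  · rw [Finsupp.single_eq_same]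
    simp
  · intro i _ hi
    rw [Finsupp.single_apply, if_neg (fun h => hi h.symm)]
    simp
  · intro h
    exact absurd (Finset.mem_univ j) h

theorem hUNI (hPHI : StPHI) : StUNI := by
  intro k
  refine ⟨?_, ?_, ?_, ?_, uni_zs, ?_, ?_, ?_⟩
  · intro s a v v' h h'
    exact uni_eq s a v v' h h'
  · intro s a v p h
    exact uni_lin hPHI s a v p h
  · intro s a v h
    refine ⟨?_, fun j => uni_var hPHI s a v h j⟩
    have h1 := uni_lin hPHI s a v 0 h
    rw [uni_zs_zero, map_zero, sub_zero] at h1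
    exact h1
  · intro s s' a a' v h h' ha ha'
    have hj : ∀ j : Fin k, a j.succ = a' j.succ := by
      intro j
      rw [← uni_var hPHI s a v h j, uni_var hPHI s' a' v h' j]
    have hp : ∀ p : ℂ, a 0 * zs s (Polynomial.X - Polynomial.C p) =
        a' 0 * zs s' (Polynomial.X - Polynomial.C p) := by
      intro p
      rw [← uni_lin hPHI s a v p h, uni_lin hPHI s' a' v p h']
    have key : a 0 = a' 0 ∧ (a 0 ≠ 0 → s = s') := by
      cases s with
      | none =>
        cases s' with
        | none =>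
          have h0 := hp 0
          rw [(uni_zs 0).1] at h0
          exact ⟨by omega, fun _ => rfl⟩
        | some q =>
          have h0 := hp q
          rw [(uni_zs q).1, (uni_zs q).2.1] at h0
          exact ⟨by omega, fun h1 => absurd (by omega) h1⟩
      | some q =>
        cases s' with
        | none =>
          have h0 := hp q
          rw [(uni_zs q).1, (uni_zs q).2.1] at h0
          exact ⟨by omega, fun h1 => absurd (by omega) h1⟩
        | some q' =>
          by_cases hq : q = q'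
          · subst hq
            have h0 := hp q
            rw [(uni_zs q).2.1] at h0
            exact ⟨by omega, fun _ => rfl⟩
          · have h0 := hp q
            rw [(uni_zs q).2.1, (uni_zs q).2.2 q' (fun h => hq h.symm)] at h0
            have h1 := hp q'
            rw [(uni_zs q').2.1, (uni_zs q').2.2 q hq] at h1
            exact ⟨by omega, fun h2 => absurd (by omega) h2⟩
    refine ⟨?_, key.2⟩
    funext i
    refine Fin.cases ?_ ?_ i
    · exact key.1
    · exact hj
  · rw [← uni_zs_zero]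
    exact (uni_zs 0).1
  · rw [← uni_zs_zero]
    exact (uni_zs 0).2.1
  · intro p hp
    rw [← uni_zs_zero]
    exact (uni_zs 0).2.2 p hp

end Pool.Agent.Helper13.CO
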